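import Mathlib
import Pool.Agent.R43.WCSFifth

/-!
Weakly consecutive sequences (WCS), MP_52d8fd_co Q1.

The definitions used are `R43WCS.IsWCS` (in `Pool/Agent/R43/WCSBasic.lean`) and `R43WCS.IsStart`,
`R43WCS.Deriv` (in `Pool/Agent/R43/WCSDeriv.lean`):

* `IsStart k t s`: `s` is the starting sequence number `t` for length `k`; `t = 1, 2, 3, 4` are the
  starting sequences of the problem, `t = 5` is the additional one, available for `k = 2 p` with
  `p`, `p + 2`, `2 p + 1` prime: `(2, 3, ..., k, 1)` with `2, 2 p` exchanged and `p, p + 2`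
  exchanged;
* `Deriv k t s l σ`: `σ` is obtained from the start `s` (number `t`) by the list `l` of rule
  applications (last one first), a swap being recorded by the pair of entries it exchanges and
  the reversal by `none`; `l.Nodup` says that the derivation is reduced.

Results: the statement of the problem fails exactly at the lengths `k ≥ 12` for which the fifth
starting sequence exists (the first is `k = 22`), and with this starting sequence added both parts
are true for all lengths.
-/

namespace Pool.Agent.Results.MP_52d8fd_co.WCSClassification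

open R43WCS

/-- `σ` has a derivation from one of the starting sequences with number at most `n`. -/
def HasDerivation (n k : ℕ) (σ : ℕ → ℕ) : Prop :=
  ∃ (t : ℕ) (s : ℕ → ℕ) (l : List (Option (ℕ × ℕ))) (τ : ℕ → ℕ),
    t ≤ n ∧ IsStart k t s ∧ Deriv k t s l τ ∧ ∀ i, 1 ≤ i → i ≤ k → τ i = σ i

/-- `σ` has a reduced derivation from one of the five starting sequences; the fifth is needed for
`12 ≤ k` only. -/
def HasReducedDerivation (k : ℕ) (σ : ℕ → ℕ) : Prop :=
  ∃ (t : ℕ) (s : ℕ → ℕ) (l : List (Option (ℕ × ℕ))) (τ : ℕ → ℕ),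
    (t = 5 → 12 ≤ k) ∧ IsStart k t s ∧ l.Nodup ∧ Deriv k t s l τ ∧
      ∀ i, 1 ≤ i → i ≤ k → τ i = σ i

/-- the lengths at which the fifth starting sequence is needed -/
def Exceptional (k : ℕ) : Prop :=
  12 ≤ k ∧ ∃ p : ℕ, p.Prime ∧ (p + 2).Prime ∧ (2 * p + 1).Prime ∧ k = 2 * p

theorem start_le {k t : ℕ} {s : ℕ → ℕ} (hs : IsStart k t s) : t ≤ 5 := by
  cases hs <;> norm_num

theorem fifth_not {p : ℕ} (hp : p.Prime) (hp2 : (p + 2).Prime) (hp3 : (2 * p + 1).Prime)
    (hk : 12 ≤ 2 * p) : ¬ HasDerivation 4 (2 * p) (fifthSeq p) := by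
  rintro ⟨t, s, l, τ, ht, hs, hd, he⟩
  have h1 := uniqueness hk hs (fifth_isStart hp hp2 hp3) hd Deriv.start he
  omega

theorem exists_all (k : ℕ) (hk : 1 ≤ k) (σ : ℕ → ℕ) (h : IsWCS k σ) :
    HasReducedDerivation k σ := by
  obtain ⟨t, s, l, τ, h1, h2, h3, h4, h5⟩ := exists_deriv h hk
  exact ⟨t, s, l, τ, h2, h1, h3, h4, h5⟩

theorem result :
    -- every WCS has a reduced derivation from the five starting sequences
    (∀ k, 1 ≤ k → ∀ σ, IsWCS k σ → HasReducedDerivation k σ) ∧
    -- for `k ≥ 12` two reduced derivations of the same sequence have the same data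
    (∀ k, 12 ≤ k → ∀ (t t' : ℕ) (s s' τ τ' : ℕ → ℕ) (l l' : List (Option (ℕ × ℕ))),
      IsStart k t s → IsStart k t' s' → Deriv k t s l τ → Deriv k t' s' l' τ' →
      l.Nodup → l'.Nodup → (∀ i, 1 ≤ i → i ≤ k → τ i = τ' i) →
      t = t' ∧ ∀ m, m ∈ l ↔ m ∈ l') ∧
    -- the four listed starting sequences suffice exactly at the non exceptional lengths
    (∀ k, 1 ≤ k → ((∀ σ, IsWCS k σ → HasDerivation 4 k σ) ↔ ¬ Exceptional k)) ∧
    -- so the statement posed is false
    ¬ (∀ k, 1 ≤ k → ∀ σ, IsWCS k σ → HasDerivation 4 k σ) := by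
  have h3 : ∀ k, 1 ≤ k → ((∀ σ, IsWCS k σ → HasDerivation 4 k σ) ↔ ¬ Exceptional k) := by
    intro k hk
    constructor
    · rintro hall ⟨h12, p, hp, hp2, hp3, rfl⟩
      exact fifth_not hp hp2 hp3 h12 (hall _ (fifth_isWCS hp hp2 hp3))
    · intro hne σ hσ
      obtain ⟨t, s, l, τ, h2, h1, _, h4, h5⟩ := exists_all k hk σ hσ
      refine ⟨t, s, l, τ, ?_, h1, h4, h5⟩
      by_contra hlt
      have ht5 : t = 5 := by
        have := start_le h1
        omega
      apply hne
      refine ⟨h2 ht5, ?_⟩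
      subst ht5
      generalize ht : (5 : ℕ) = t' at h1
      cases h1 with
      | fifth p hp hp2 hp3 hkp => exact ⟨p, hp, hp2, hp3, hkp⟩
      | _ => omega
  refine ⟨exists_all, ?_, h3, ?_⟩
  · intro k hk t t' s s' τ τ' l l' hs hs' hd hd' hl hl' he
    have := uniqueness hk hs hs' hd hd' he
    exact ⟨this.1, this.2 hl hl'⟩
  · intro hall
    have h22 : Exceptional 22 := ⟨by norm_num, 11, by norm_num, by norm_num, by norm_num, rfl⟩
    exact (h3 22 (by norm_num)).1 (hall 22 (by norm_num)) h22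

end Pool.Agent.Results.MP_52d8fd_co.WCSClassification
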